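import Mathlib
import Pool.Agent.Lib.MP_dd58da_co.Strip

/-!
The thinnest strip containing three of `n` points of the unit square has width `o (1 / n)`.
-/

set_option autoImplicit false

namespace Pool.Agent.Results.MP_dd58da_co.StripWidth

open Filter Topology
open scoped ENNReal

/-- The strip of half-width `δ` around `ℓ`. -/
def strip (ℓ : AffineSubspace ℝ (EuclideanSpace ℝ (Fin 2))) (δ : ℝ) :
    Set (EuclideanSpace ℝ (Fin 2)) :=
  {x | Metric.infDist x (ℓ : Set (EuclideanSpace ℝ (Fin 2))) ≤ δ}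

/-- The smallest width of a strip around a line that contains at least three points of `P`. -/
noncomputable def w (P : Set (EuclideanSpace ℝ (Fin 2))) : ℝ≥0∞ :=
  ⨅ (ℓ : AffineSubspace ℝ (EuclideanSpace ℝ (Fin 2))) (δ : ℝ)
    (_ : Module.finrank ℝ ℓ.direction = 1) (_ : 0 ≤ δ) (_ : 3 ≤ (P ∩ strip ℓ δ).encard),
    ENNReal.ofReal (2 * δ)

/-- The worst case over all sets of `n` points of the unit square. -/
noncomputable def W (n : ℕ) : ℝ≥0∞ :=
  ⨆ (P : Set (EuclideanSpace ℝ (Fin 2))) (_ : ∀ x ∈ P, ∀ i, x i ∈ Set.Icc (0 : ℝ) 1)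
    (_ : P.encard = n), w P

theorem mem_strip {u v t δ : ℝ} (h : u ^ 2 + v ^ 2 = 1) (x : EuclideanSpace ℝ (Fin 2))
    (hx : |u * x 0 + v * x 1 - t| ≤ δ) :
    x ∈ strip (AffineSubspace.mk' (!₂[t * u, t * v]) (Submodule.span ℝ {!₂[-v, u]})) δ := by
  set s := u * x 0 + v * x 1 - t with hs
  have hm : x - s • (!₂[u, v] : EuclideanSpace ℝ (Fin 2)) ∈
      AffineSubspace.mk' (!₂[t * u, t * v] : EuclideanSpace ℝ (Fin 2))
        (Submodule.span ℝ {!₂[-v, u]}) := by
    rw [AffineSubspace.mem_mk', Submodule.mem_span_singleton]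
    refine ⟨-v * x 0 + u * x 1, ?_⟩
    ext i
    fin_cases i
    · simp [hs]
      linear_combination (x 0) * h
    · simp [hs]
      linear_combination (x 1) * h
  refine (Metric.infDist_le_dist_of_mem hm).trans ?_
  have hn : ‖(!₂[u, v] : EuclideanSpace ℝ (Fin 2))‖ = 1 := by
    rw [EuclideanSpace.norm_eq]
    simp [Fin.sum_univ_two, h]
  rw [dist_eq_norm, sub_sub_cancel, norm_smul, hn, mul_one, Real.norm_eq_abs]
  exact hx

theorem W_le {ε : ℝ} (hε : 0 < ε) : ∃ N : ℕ, ∀ n : ℕ, N ≤ n →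
    W n ≤ ENNReal.ofReal (2 * (ε / n)) := by
  classical
  obtain ⟨N, hN⟩ := Pool.Agent.Lib.MP_dd58da_co.thin_strip ε hε
  refine ⟨N, fun n hn => iSup_le fun P => iSup_le fun hP => iSup_le fun hc => ?_⟩
  have hfin : P.Finite := Set.finite_of_encard_eq_coe hc
  let c : EuclideanSpace ℝ (Fin 2) → ℝ × ℝ := fun x => (x 0, x 1)
  have hinj : Function.Injective c := fun x y h => by
    ext i
    fin_cases i
    · exact congrArg Prod.fst h
    · exact congrArg Prod.snd h
  have hcard : (hfin.toFinset.image c).card = n := by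
    rw [Finset.card_image_of_injective _ hinj]
    have := hfin.encard_eq_coe_toFinset_card
    rw [hc] at this
    exact_mod_cast this.symm
  obtain ⟨a, ha, b, hb, d, hd, hab, had, hbd, u, v, t, huv, h1, h2, h3⟩ :=
    hN n hn _ hcard (by
      intro p hp
      obtain ⟨x, hx, rfl⟩ := Finset.mem_image.1 hp
      have hx' := hP x (hfin.mem_toFinset.1 hx)
      exact ⟨(hx' 0).1, (hx' 0).2, (hx' 1).1, (hx' 1).2⟩)
  obtain ⟨a, ha', rfl⟩ := Finset.mem_image.1 ha
  obtain ⟨b, hb', rfl⟩ := Finset.mem_image.1 hb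
  obtain ⟨d, hd', rfl⟩ := Finset.mem_image.1 hd
  have hne : (!₂[-v, u] : EuclideanSpace ℝ (Fin 2)) ≠ 0 := fun h => by
    have e0 : -v = 0 := by simpa using congrArg (fun z : EuclideanSpace ℝ (Fin 2) => z 0) h
    have e1 : u = 0 := by simpa using congrArg (fun z : EuclideanSpace ℝ (Fin 2) => z 1) h
    have e2 : v = 0 := by linarith
    rw [e1, e2] at huv
    norm_num at huv
  refine iInf_le_of_le (AffineSubspace.mk' (!₂[t * u, t * v]) (Submodule.span ℝ {!₂[-v, u]}))
    (iInf_le_of_le (ε / n) (iInf_le_of_le ?_ (iInf_le_of_le (by positivity)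
      (iInf_le_of_le ?_ le_rfl))))
  · rw [AffineSubspace.direction_mk', finrank_span_singleton hne]
  · have h4 : ({a, b, d} : Set (EuclideanSpace ℝ (Fin 2))).encard = 3 :=
      Set.encard_eq_three.2 ⟨a, b, d, fun h => hab (congrArg c h), fun h => had (congrArg c h),
        fun h => hbd (congrArg c h), rfl⟩
    rw [← h4]
    refine Set.encard_le_encard ?_
    rintro x (rfl | rfl | rfl)
    · exact ⟨hfin.mem_toFinset.1 ha', mem_strip huv _ h1⟩
    · exact ⟨hfin.mem_toFinset.1 hb', mem_strip huv _ h2⟩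
    · exact ⟨hfin.mem_toFinset.1 hd', mem_strip huv _ h3⟩

/-- `n W(n) → 0`. -/
theorem result : Tendsto (fun n : ℕ => (n : ℝ≥0∞) * W n) atTop (𝓝 0) := by
  refine ENNReal.tendsto_atTop_zero.2 fun ε hε => ?_
  obtain ⟨r, hr0, hr⟩ : ∃ r : ℝ, 0 < r ∧ ENNReal.ofReal r ≤ ε := by
    obtain ⟨r, -, h1, h2⟩ := ENNReal.lt_iff_exists_real_btwn.1 hε
    exact ⟨r, ENNReal.ofReal_pos.1 h1, h2.le⟩
  obtain ⟨N, hN⟩ := W_le (half_pos hr0)
  refine ⟨max N 1, fun n hn => le_trans ?_ hr⟩
  have hn1 : (0 : ℝ) < n := by exact_mod_cast (le_max_right N 1).trans hn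
  calc (n : ℝ≥0∞) * W n ≤ (n : ℝ≥0∞) * ENNReal.ofReal (2 * (r / 2 / n)) :=
        mul_le_mul_right (hN n ((le_max_left N 1).trans hn)) _
    _ = ENNReal.ofReal r := by
        rw [← ENNReal.ofReal_natCast, ← ENNReal.ofReal_mul hn1.le]
        congr 1
        field_simp

end Pool.Agent.Results.MP_dd58da_co.StripWidth
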